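import Mathlib
import Pool.Agent.X333.DC.DomH

/-!
MP_5b1cbc_ag, Q1: general type and pseudo-geometric hyperbolicity for the projective varieties
which are dominated by the covers of varieties given by nested sums of high powers of linear forms
or of monomials.

`V` is given by its function field `K` and its generic point `y` (`SubVar`), `X` by its function
field `L` and its generic point `x`: `coords k x = ⊤` says that the ratios of the coordinates
generate `L`. `HighTowers s N h F` (`Pool/Agent/TH710/ND/Proj.lean`): the forms `F_e` are nested sums
of powers of linear forms, or all of them are nested sums of powers of monomials, at most `h + 1`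
levels, at most `s` summands on each level, one exponent `≥ N` on each level. `PseudoGeomHyp` (`Pool/Agent/W602/RG/TB.lean`): off a proper closed subset of
`X`, for every pointed curve there are finitely many morphisms to `X` with a given value at the
marked point. `PseudoBounded` (`Pool/Agent/Y221/PB/Rat.lean`): off a proper closed subset, the
degrees of the morphisms from each curve to `X` are bounded. `CurveBound`
(`Pool/Agent/Y216/Point.lean`), `CoverBound` (`Pool/Agent/Y221/PB/Dom.lean`): off a proper closed
subset, the degree of every morphism to `X` from a curve `C`, or from a covering of degree at most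
`ρ` of a curve `C`, is at most `A max (2 g (C) - 2, 0)`.
-/

set_option autoImplicit false

namespace Pool.Agent.Results.MP_5b1cbc_ag.DominatedNestedVarieties

open Pool.Agent.W602.GT Pool.Agent.Y221.PB Pool.Agent.TH710.ND
open Pool.Agent.TH466.QG (RatCurve)
open Pool.Agent.W602.RG (PseudoGeomHyp)
open Pool.Agent.W619.PQ (IsUniruled)
open Pool.Agent.Y216 (CurveBound)

/-- Let `{F = 0}` in `ℙⁿ` be given by finitely many forms which are nested sums of powers of
linear forms, or nested sums of powers of monomials: at most `h + 1` levels, on each level at most
`s` summands and one exponent `≥ 8 ρ r (n + 1) (h + 1) (2 s + 1) ^ 5`. Let `V` be a closed subvariety of it, of dimension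
`w ≥ 1`.

(1) If `V` is an irreducible component of `{F = 0}` which is not birational to `B × ℙ¹`, or if there
is no nonconstant rational curve in `{F = 0}` through the generic point of `V`, then all projective
varieties `X` with generically finite dominant rational maps `X' ⇢ V`, of any degree, and `X' ⇢ X`,
of degree at most `r`, are of general type and pseudo-geometrically hyperbolic, and the degrees of
the curves in `X`, and of the coverings of degree at most `ρ` of curves, are bounded linearly in
the genus of the curve.

(2) If `V` is an irreducible component of `{F = 0}` and `V ⇢ X` is a dominant rational map of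
degree at most `r` to a projective variety, then the following are equivalent: `X` is of general
type; `X` is pseudo-geometrically hyperbolic; the degrees of the morphisms from each curve to `X`
are bounded off a proper closed subset; the same with a linear bound in the genus; the same for the
coverings of degree at most `ρ` of the curves; `X` is not uniruled; `V` is not birational to
`B × ℙ¹`. -/
theorem result {k : Type} [Field k] [IsAlgClosed k] [CharZero k] {n : ℕ} {ι : Type} [Finite ι]
    {F : ι → MvPolynomial (Fin (n + 1)) k} {s N h r ρ w : ℕ}
    (hF : HighTowers s N h F) (hw : 1 ≤ w) (hρ : 1 ≤ ρ)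
    (hN : 8 * (ρ * r * ((n + 1) * ((h + 1) * (2 * s + 1) ^ 5))) ≤ N) {K : Type} [Field K]
    [Algebra k K] {y : Fin (n + 1) → K} (hy : SubVar F K w y) :
    (¬ RatCurve F y ∨ IsComponent F y ∧ ¬ Ruled k K →
      ∀ (K' L : Type) [Field K'] [Field L] [Algebra k K'] [Algebra k L] [Algebra K K']
        [Algebra L K'] [IsScalarTower k K K'] [IsScalarTower k L K'] [FiniteDimensional K K']
        [FiniteDimensional L K'], Module.finrank L K' ≤ r →
        ∀ (M : ℕ) (x : Fin (M + 1) → L), x ≠ 0 → coords k x = ⊤ →
          GeneralType k L w ∧ PseudoGeomHyp k x ∧ CoverBound k ρ x) ∧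
    (IsComponent F y →
      ∀ (L : Type) [Field L] [Algebra k L] [Algebra L K] [IsScalarTower k L K]
        [FiniteDimensional L K], Module.finrank L K ≤ r →
        ∀ (M : ℕ) (x : Fin (M + 1) → L), x ≠ 0 → coords k x = ⊤ →
          [GeneralType k L w, PseudoGeomHyp k x, PseudoBounded k x, CurveBound k x,
            CoverBound k ρ x, ¬ IsUniruled k L w, ¬ Ruled k K].TFAE) := by
  refine ⟨fun h0 K' L _ _ _ _ _ _ _ _ _ _ hr M x hx hgen => ?_,
    fun hc L _ _ _ _ _ hr M x hx hgen =>
      Pool.Agent.X333.DC.dom_tfaeH hF hw hρ hN hy hc hr hx hgen⟩
  obtain ⟨h1, h2, h3⟩ := Pool.Agent.X333.DC.dom_allH (K' := K') hF hw hρ hN hy h0 hr hx hgen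
  exact ⟨h1, h3, h2⟩

end Pool.Agent.Results.MP_5b1cbc_ag.DominatedNestedVarieties
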