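import Mathlib
import Pool.Agent.X333.MC.Proj

/-!
MP_5b1cbc_ag, Q1: general type and pseudo-geometric hyperbolicity for projective varieties given by
nested sums of few high powers of monomials.
-/

set_option autoImplicit false

namespace Pool.Agent.Results.MP_5b1cbc_ag.NestedMonomialPointed

open FF MvPolynomial Pool.Agent.W602.RG Pool.Agent.W602.GT Pool.Agent.TH710.ND
  Pool.Agent.X333.MC

/-- Let `V` be an irreducible component of a projective variety over an algebraically closed field
of characteristic zero, given by finitely many forms which are nested sums of few high powers of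
monomials. The following are equivalent: outside a proper closed subset of `V`, for every pointed
curve there are only finitely many morphisms to `V` with a given value at the marked point; the
same for the projective line only; every one-parameter group of diagonal matrices which maps `V` to
`V` acts trivially on `V`; outside a proper closed subset, the degrees of the maps from curves to
`V` are at most `B max (2 g - 2, 0)`. These hold if `V` is of general type. If the exponents are
large, they hold if and only if `V` is of general type. -/
theorem result {k : Type} [Field k] [IsAlgClosed k] [CharZero k] {n : ℕ} {ι : Type} [Finite ι]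
    {F : ι → MvPolynomial (Fin (n + 1)) k} (hF : ∀ i, IsForm (F i) ∧ MTower (F i))
    {K : Type} [Field K] [Algebra k K] {w : ℕ} {y : Fin (n + 1) → K}
    (hy : SubVar F K w y) (hcomp : IsComponent F y) :
    [PseudoGeomHyp k y,
      ∃ G : MvPolynomial (Fin (n + 1)) k, IsForm G ∧ val y G ≠ 0 ∧
        ∀ (c : Place k (RatFunc k)), ∀ x ∈ VarPts k y, val x G ≠ 0 → (PointedMaps y c x).Finite,
      NoAction k y, GenusBound k y].TFAE ∧
    (GeneralType k K w → PseudoGeomHyp k y) ∧
    ∀ s N h : ℕ, (∀ i, NestedIn IsMono s N h (F i)) →
      (n + 1) * ((h + 1) * (2 * s + 1) ^ 5) ≤ N → (GeneralType k K w ↔ PseudoGeomHyp k y) :=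
  ⟨proj_tfae (fun i => (hF i).2) (fun i => (hF i).1) hy hcomp,
    pointed_of_gt (fun i => (hF i).2) (fun i => (hF i).1) hy hcomp, fun _ _ _ hF' hN =>
    ⟨pointed_of_gt (fun i => (hF i).2) (fun i => (hF i).1) hy hcomp,
      gt_of_pointed (fun i => ⟨(hF i).1, hF' i⟩) hN hy hcomp⟩⟩

end Pool.Agent.Results.MP_5b1cbc_ag.NestedMonomialPointed
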