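import Pool.Agent.X316.ZE.Gt
import Pool.Agent.X316.ZE.Bdd
import Pool.Agent.X316.ZE.Ptd

/-!
# Pointed maps from elliptic curves and entire curves built from the zeta function

Let `X = V(I)` and `Z = V(I')` be closed subsets of the complex projective space. Lang's
conjectures predict that for a variety `X` of general type there is a proper closed subset `Z` such
that for all pointed curves `(C, c)` and all points `x` of `X` outside `Z` there are only finitely
many morphisms `f : C → X` with `f c = x`, and such that all nonconstant entire curves in `X` are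
contained in `Z`.

We compare these conditions for elliptic curves `C` (complex tori of dimension one) with `c = 0`, and
for the entire curves built from elliptic functions and the Riemann zeta function: both conditions
are equivalent, for every closed subset `Z`, and they hold if all subvarieties of `X` of positive
dimension which are not contained in `Z` are of general type, and if for each smooth projective
curve the degrees of the morphisms to `X` with image not contained in `Z` are bounded.

A family `u` of meromorphic functions on the plane is called jointly universal if the translates of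
every finite subfamily approximate all tuples of zero-free entire functions uniformly on some disc.
By Voronin's theorem the Riemann zeta function alone is such a family. For a lattice let `B` be the
ring of the polynomials in the elliptic functions of the lattice, the functions `u j` and all their
derivatives. A curve is built from elliptic functions and `u` if for some lattice it is algebraic
over `B`, or has homogeneous coordinates in the smallest set of meromorphic functions which contains
the quotients of elements of `B` and is closed under sums, products and meromorphic solutions of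
linear systems `y' = A y` with coefficients in the set.
-/

set_option autoImplicit false

namespace Pool.Agent.Results.MP_5b1cbc_ag.PointedTorusMaps

open Filter MvPolynomial FF Pool.Agent.W603.LV Pool.Agent.W603.PV
open scoped LinearAlgebra.Projectivization
open Pool.Agent.TH143.EL (HolMap Rep InV TorusMapsIn Ell)
open Pool.Agent.W602.GT (IsForm GeneralType coords val)
open Pool.Agent.Y377.IL (IterLin IteratedOver AlgebraicOver)
open Pool.Agent.X316.ZG (JointlyUniversal)
open Pool.Agent.X316.ZE (dringB)

variable {N : ℕ}

/-- The curve `f` is built from the elliptic functions with the periods `ω₁` and `ω₂` and the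
functions `u j`: with `B` the ring of the polynomials in these elliptic functions, the functions
`u j` and all their derivatives, the curve has homogeneous coordinates in the smallest set of
meromorphic functions which contains the quotients of elements of `B` and is closed under sums,
products and meromorphic solutions of linear systems over the set, or it is algebraic over `B`. -/
def BuiltFrom {ι : Type} (ω₁ ω₂ : ℂ) (u : ι → ℂ → ℂ) (f : ℂ → ℙ ℂ (Fin (N + 1) → ℂ)) : Prop :=
  IteratedOver (dringB (Ell ω₁ ω₂) u) f ∨ AlgebraicOver (dringB (Ell ω₁ ω₂) u) f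

/-- All nonconstant entire curves in `X = V(I)` which are built from elliptic functions and the
functions `u j` lie in `Z = V(I')`. -/
def BuiltIn {ι : Type} (u : ι → ℂ → ℂ) (I I' : Ideal (MvPolynomial (Fin (N + 1)) ℂ)) : Prop :=
  ∀ ω₁ ω₂ : ℂ, LinearIndependent ℝ ![ω₁, ω₂] → ∀ f : ℂ → ℙ ℂ (Fin (N + 1) → ℂ), HolMap f →
    BuiltFrom ω₁ ω₂ u f → (∀ z, InV I (f z)) → (∃ z w, f z ≠ f w) → ∀ z, InV I' (f z)

/-- Every nonconstant holomorphic map from a one-dimensional complex torus to `X = V(I)` has its
image in `Z = V(I')`. -/
def TorusIn (I I' : Ideal (MvPolynomial (Fin (N + 1)) ℂ)) : Prop :=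
  ∀ ω₁ ω₂ : ℂ, LinearIndependent ℝ ![ω₁, ω₂] → ∀ f : ℂ → ℙ ℂ (Fin (N + 1) → ℂ), HolMap f →
    (∀ z, f (z + ω₁) = f z) → (∀ z, f (z + ω₂) = f z) → (∀ z, InV I (f z)) →
    (∃ z w, f z ≠ f w) → ∀ z, InV I' (f z)

/-- For every lattice and every point `x` outside of `Z = V(I')` there are only finitely many
holomorphic maps `f` from the torus `ℂ / (ℤ ω₁ + ℤ ω₂)` to `X = V(I)` with `f 0 = x`. -/
def PointedFinite (I I' : Ideal (MvPolynomial (Fin (N + 1)) ℂ)) : Prop :=
  ∀ ω₁ ω₂ : ℂ, LinearIndependent ℝ ![ω₁, ω₂] → ∀ x : ℙ ℂ (Fin (N + 1) → ℂ), ¬ InV I' x →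
    {f : ℂ → ℙ ℂ (Fin (N + 1) → ℂ) | HolMap f ∧ (∀ z, f (z + ω₁) = f z) ∧
      (∀ z, f (z + ω₂) = f z) ∧ (∀ z, InV I (f z)) ∧ f 0 = x}.Finite

/-- All subvarieties of positive dimension of `X = V(I)` which are not contained in `Z = V(I')` are
of general type: `F` is the function field and `y` the generic point, in homogeneous coordinates, of
the subvariety, and `w` is its dimension. -/
def SubvarietiesGeneralType (I I' : Ideal (MvPolynomial (Fin (N + 1)) ℂ)) : Prop :=
  ∀ (F : Type) [Field F] [Algebra ℂ F] (w : ℕ) (y : Fin (N + 1) → F), 1 ≤ w →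
    Algebra.trdeg ℂ F = w → y ≠ 0 → coords ℂ y = ⊤ →
    (∀ G ∈ I, IsForm G → val y G = 0) → ¬ (∀ G ∈ I', IsForm G → val y G = 0) →
    GeneralType ℂ F w

/-- For every smooth projective curve (with function field `L`) the degrees of the morphisms from the
curve to `X = V(I)`, whose image is not contained in `Z = V(I')`, are bounded. -/
def BoundedModulo (I I' : Ideal (MvPolynomial (Fin (N + 1)) ℂ)) : Prop :=
  ∀ (L : Type) [Field L] [Algebra ℂ L] [IsFF ℂ L], ∃ B : ℤ, ∀ f : Fin (N + 1) → L, f ≠ 0 →
    (∀ G ∈ I, IsForm G → val f G = 0) → ¬ (∀ G ∈ I', IsForm G → val f G = 0) → pht ℂ f ≤ B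

open Pool.Agent.TH143.HE (IsPtP)
open Pool.Agent.Y719.LC (inV_cI)
open Pool.Agent.TH143.EL (rep_rep)

/-- tori are built from elliptic functions -/
theorem built_of_torus {ι : Type} (u : ι → ℂ → ℂ) {f : ℂ → ℙ ℂ (Fin (N + 1) → ℂ)} (hf : HolMap f)
    {ω₁ ω₂ : ℂ} (h1 : ∀ z, f (z + ω₁) = f z) (h2 : ∀ z, f (z + ω₂) = f z) :
    BuiltFrom ω₁ ω₂ u f := by
  obtain ⟨h, hl, hr⟩ := Pool.Agent.TH600.LK.torus_coords_ell hf h1 h2
  refine Or.inl ⟨fun j z => h z j, fun j => ?_, hr⟩
  have h0 : (fun z => h z j) ∈ dringB (Ell ω₁ ω₂) u :=
    ⟨(hl j).1, _, Algebra.subset_adjoin (Or.inl (hl j)), Eventually.of_forall fun _ => rfl⟩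
  have h3 := IterLin.quot h0 (dringB (Ell ω₁ ω₂) u).one_mem
  have h4 : (fun z => h z j / (1 : ℂ → ℂ) z) = fun z => h z j := by
    funext z
    exact div_one _
  rwa [h4] at h3

theorem inV_id {J : Ideal (MvPolynomial (Fin (N + 1)) ℂ)} {p : ℙ ℂ (Fin (N + 1) → ℂ)} :
    InV (Pool.Agent.Y719.LC.cI (RingHom.id ℂ) J) p ↔ InV J p := by
  rw [inV_cI (rep_rep p)]
  exact Iff.rfl

theorem torus_id {I I' : Ideal (MvPolynomial (Fin (N + 1)) ℂ)}
    (h : TorusMapsIn (Pool.Agent.Y719.LC.cI (RingHom.id ℂ) I)
      (Pool.Agent.Y719.LC.cI (RingHom.id ℂ) I')) : TorusIn I I' :=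
  fun ω₁ ω₂ hω f hf h1 h2 h3 h4 z =>
    inV_id.1 (h ω₁ ω₂ hω f hf h1 h2 (fun z => inV_id.2 (h3 z)) h4 z)

/-- **Pointed maps from elliptic curves and curves built from the zeta function.** Let `X` and `Z`
be the closed subsets of the projective space given by the ideals `I` and `I'`.

(1) The following are equivalent: for every complex torus of dimension one and every point `x`
outside of `Z` there are only finitely many holomorphic maps `f` from the torus to `X` with
`f 0 = x`; all nonconstant holomorphic maps from complex tori of dimension one to `X` have their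
image in `Z`; all nonconstant entire curves in `X` built from elliptic functions and the Riemann
zeta function are contained in `Z`; the same for every jointly universal family.

(2) These conditions hold if all subvarieties of `X` of positive dimension which are not contained
in `Z` are of general type.

(3) They hold if for every smooth projective curve the degrees of the morphisms to `X` with image
not contained in `Z` are bounded.

(4) The Riemann zeta function is universal. -/
theorem result (I I' : Ideal (MvPolynomial (Fin (N + 1)) ℂ)) :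
    [PointedFinite I I', TorusIn I I', BuiltIn (fun _ : Unit => riemannZeta) I I',
      ∀ (ι : Type) (u : ι → ℂ → ℂ), JointlyUniversal u → BuiltIn u I I'].TFAE ∧
    (SubvarietiesGeneralType I I' → PointedFinite I I' ∧
      ∀ (ι : Type) (u : ι → ℂ → ℂ), JointlyUniversal u → BuiltIn u I I') ∧
    (BoundedModulo I I' → PointedFinite I I' ∧
      ∀ (ι : Type) (u : ι → ℂ → ℂ), JointlyUniversal u → BuiltIn u I I') ∧
    JointlyUniversal fun _ : Unit => riemannZeta := by
  have key : [PointedFinite I I', TorusIn I I', BuiltIn (fun _ : Unit => riemannZeta) I I',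
      ∀ (ι : Type) (u : ι → ℂ → ℂ), JointlyUniversal u → BuiltIn u I I'].TFAE := by
    tfae_have 1 → 2 := fun h => Pool.Agent.X316.ZE.torus_of_pointed h
    tfae_have 2 → 1 := fun h => Pool.Agent.X316.ZE.pointed_of_torus h
    tfae_have 2 → 4 := fun h ι u hu ω₁ ω₂ hω f hf hb hI hnc =>
      Pool.Agent.X316.ZE.built_torus h hf ⟨ω₁, ω₂, hω, ι, u, hu, hb⟩ hI hnc
    tfae_have 4 → 3 := fun h => h _ _ Pool.Agent.X316.ZG.zeta_universal
    tfae_have 3 → 2 := fun h ω₁ ω₂ hω f hf h1 h2 hI hnc =>
      h ω₁ ω₂ hω f hf (built_of_torus _ hf h1 h2) hI hnc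
    tfae_finish
  refine ⟨key, fun h => ?_, fun h => ?_, Pool.Agent.X316.ZG.zeta_universal⟩
  · have h1 : TorusIn I I' := by
      refine Pool.Agent.X316.ZE.torus_of_allGT fun F _ _ w y hw htr hy0 hgen h1 h2 => ?_
      rw [Pool.Agent.X316.ZE.isPtP_val] at h1 h2
      exact h F w y hw htr hy0 hgen h1 h2
    exact ⟨(key.out 0 1).2 h1, (key.out 1 3).1 h1⟩
  · have h1 : TorusIn I I' := by
      refine torus_id (Pool.Agent.X316.ZE.torus_of_genus
        (Pool.Agent.X316.ZE.genusLeOne_of_bdd ?_))
      intro L _ _ _
      obtain ⟨B, hB⟩ := h L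
      refine ⟨B, fun f hf0 h1 h2 => hB f hf0 ?_ ?_⟩
      · exact Pool.Agent.X316.ZE.isPtP_val.1 h1
      · exact fun h3 => h2 (Pool.Agent.X316.ZE.isPtP_val.2 h3)
    exact ⟨(key.out 0 1).2 h1, (key.out 1 3).1 h1⟩

end Pool.Agent.Results.MP_5b1cbc_ag.PointedTorusMaps
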